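import Pool.Agent.H499.CF.Stm

/-!
# PHI (helper370): the algebra generated by the representations and the homomorphism to the product
of matrix algebras, general rings
-/

set_option autoImplicit false
set_option linter.unusedSectionVars false

namespace Pool.Agent.H370.CF

open Matrix Pool.Agent.H499.CF

section fac

variable {O : Type} [CommRing O]

/-- factorisation through the range -/
theorem exists_fac {R M₁ M₂ : Type} [Ring R] [Ring M₁] [Ring M₂] [Algebra O R] [Algebra O M₁] [Algebra O M₂]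
    (e₁ : R →ₐ[O] M₁) (e₂ : R →ₐ[O] M₂) (h : ∀ c, e₁ c = 0 → e₂ c = 0) :
    ∃ Φ : e₁.range →ₐ[O] M₂, ∀ c (hc : e₁ c ∈ e₁.range), Φ ⟨e₁ c, hc⟩ = e₂ c := by
  classical
  have hwd : ∀ c c', e₁ c = e₁ c' → e₂ c = e₂ c' := by
    intro c c' hc
    have h1 := h (c - c') (by rw [map_sub, hc, sub_self])
    rw [map_sub, sub_eq_zero] at h1
    exact h1
  have hs : ∀ x : e₁.range, ∃ c, e₁ c = x := fun x => x.2
  choose s hs using hs
  refine ⟨⟨⟨⟨⟨fun x => e₂ (s x), ?_⟩, ?_⟩, ?_, ?_⟩, ?_⟩, ?_⟩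
  · rw [← map_one e₂]
    apply hwd
    rw [hs, map_one]; rfl
  · intro x y
    show e₂ (s (x * y)) = e₂ (s x) * e₂ (s y)
    rw [← map_mul]
    apply hwd
    rw [hs, map_mul, hs, hs]; rfl
  · show e₂ (s 0) = 0
    rw [← map_zero e₂]
    apply hwd
    rw [hs, map_zero]; rfl
  · intro x y
    show e₂ (s (x + y)) = e₂ (s x) + e₂ (s y)
    rw [← map_add]
    apply hwd
    rw [hs, map_add, hs, hs]; rfl
  · intro r
    show e₂ (s (algebraMap O _ r)) = algebraMap O _ r
    rw [← e₂.commutes]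
    apply hwd
    rw [hs, e₁.commutes]; rfl
  · intro c hc
    show e₂ (s _) = e₂ c
    apply hwd
    rw [hs]

end fac

section main

variable {T G K J : Type} {L : K → Type} [CommRing T] [Group G] [∀ κ, Field (L κ)]
  [∀ κ, Algebra T (L κ)] [Fintype J] [DecidableEq J] {I : Ideal T} {d : J → ℕ}

/-- the tuple of the `ρ i` -/
def rt (ρ : ∀ i, G →* Matrix (Fin (d i)) (Fin (d i)) (T ⧸ I)) :
    G →* (∀ i, Matrix (Fin (d i)) (Fin (d i)) (T ⧸ I)) where
  toFun g i := ρ i g
  map_one' := by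
    funext i
    exact map_one _
  map_mul' g h := by
    funext i
    exact map_mul _ _ _

/-- the homomorphism to the matrices over `∏ L κ` -/
noncomputable def FF (r : ∀ κ, G →* Matrix (Σ i, Fin (d i)) (Σ i, Fin (d i)) (L κ)) :
    MonoidAlgebra T G →ₐ[T] Matrix (Σ i, Fin (d i)) (Σ i, Fin (d i)) (∀ κ, L κ) :=
  MonoidAlgebra.lift T _ G (fam r)

/-- the homomorphism to the product of the matrices over `T / I` -/
noncomputable def PP (ρ : ∀ i, G →* Matrix (Fin (d i)) (Fin (d i)) (T ⧸ I)) :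
    MonoidAlgebra T G →ₐ[T] (∀ i, Matrix (Fin (d i)) (Fin (d i)) (T ⧸ I)) :=
  MonoidAlgebra.lift T _ G (rt ρ)

theorem ex_tr {ρ : ∀ i, G →* Matrix (Fin (d i)) (Fin (d i)) (T ⧸ I)}
    {r : ∀ κ, G →* Matrix (Σ i, Fin (d i)) (Σ i, Fin (d i)) (L κ)} {t : G → T} (H : Hyp I ρ r t)
    (c : MonoidAlgebra T G) : ∃ s : T, (FF r c).trace = algebraMap T (∀ κ, L κ) s ∧
      Ideal.Quotient.mk I s = ∑ i, (PP ρ c i).trace := by
  induction c using MonoidAlgebra.induction_linear with
  | zero =>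
    refine ⟨0, ?_, ?_⟩
    · rw [map_zero, map_zero, Matrix.trace_zero]
    · rw [map_zero, map_zero]
      symm
      apply Finset.sum_eq_zero
      intro i _
      rw [Pi.zero_apply, Matrix.trace_zero]
  | add c c' h h' =>
    obtain ⟨s, hs1, hs2⟩ := h
    obtain ⟨s', hs1', hs2'⟩ := h'
    refine ⟨s + s', ?_, ?_⟩
    · rw [map_add, Matrix.trace_add, hs1, hs1', map_add]
    · rw [map_add, map_add, hs2, hs2', ← Finset.sum_add_distrib]
      refine Finset.sum_congr rfl fun i _ => ?_
      rw [Pi.add_apply, Matrix.trace_add]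
  | single g a =>
    refine ⟨a * t g, ?_, ?_⟩
    · have h1 : FF r (MonoidAlgebra.single g a) = a • fam r g := MonoidAlgebra.lift_single _ _ _
      rw [h1, Matrix.trace_smul]
      have h2 : (fam r g).trace = algebraMap T (∀ κ, L κ) (t g) := by
        funext κ
        rw [Pi.algebraMap_apply, H.tr g κ]
        unfold Matrix.trace
        rw [Finset.sum_apply]
        rfl
      rw [h2, map_mul, Algebra.smul_def]
    · have h1 : PP ρ (MonoidAlgebra.single g a) = a • rt ρ g := MonoidAlgebra.lift_single _ _ _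
      rw [h1, map_mul, H.tr_eq g, Finset.mul_sum]
      refine Finset.sum_congr rfl fun i _ => ?_
      rw [Pi.smul_apply, Matrix.trace_smul, Algebra.smul_def]
      rfl

theorem inj' {ρ : ∀ i, G →* Matrix (Fin (d i)) (Fin (d i)) (T ⧸ I)}
    {r : ∀ κ, G →* Matrix (Σ i, Fin (d i)) (Σ i, Fin (d i)) (L κ)} {t : G → T} (H : Hyp I ρ r t)
    (x y : T) (h : algebraMap T (∀ κ, L κ) x = algebraMap T (∀ κ, L κ) y) : x = y := by
  rw [← sub_eq_zero]
  apply H.inj
  intro κ
  rw [map_sub, sub_eq_zero]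
  exact congrFun h κ

/-- the trace as a linear map -/
noncomputable def tt {ρ : ∀ i, G →* Matrix (Fin (d i)) (Fin (d i)) (T ⧸ I)}
    {r : ∀ κ, G →* Matrix (Σ i, Fin (d i)) (Σ i, Fin (d i)) (L κ)} {t : G → T} (H : Hyp I ρ r t) :
    MonoidAlgebra T G →ₗ[T] T where
  toFun c := Classical.choose (ex_tr H c)
  map_add' c c' := by
    apply inj' H
    have h1 := (Classical.choose_spec (ex_tr H (c + c'))).1
    have h2 := (Classical.choose_spec (ex_tr H c)).1
    have h3 := (Classical.choose_spec (ex_tr H c')).1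
    rw [map_add (algebraMap T (∀ κ, L κ))]
    exact h1.symm.trans (((congrArg Matrix.trace (map_add (FF r) c c')).trans
      (Matrix.trace_add _ _)).trans (congrArg₂ (· + ·) h2 h3))
  map_smul' a c := by
    apply inj' H
    have h1 := (Classical.choose_spec (ex_tr H (a • c))).1
    have h2 := (Classical.choose_spec (ex_tr H c)).1
    rw [RingHom.id_apply, smul_eq_mul, map_mul (algebraMap T (∀ κ, L κ))]
    refine h1.symm.trans (((congrArg Matrix.trace (map_smul (FF r) a c)).trans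
      (Matrix.trace_smul _ _)).trans ?_)
    rw [Algebra.smul_def]
    exact congrArg (fun z => algebraMap T (∀ κ, L κ) a * z) h2

theorem tt_spec {ρ : ∀ i, G →* Matrix (Fin (d i)) (Fin (d i)) (T ⧸ I)}
    {r : ∀ κ, G →* Matrix (Σ i, Fin (d i)) (Σ i, Fin (d i)) (L κ)} {t : G → T} (H : Hyp I ρ r t)
    (c : MonoidAlgebra T G) : (FF r c).trace = algebraMap T (∀ κ, L κ) (tt H c) ∧
      Ideal.Quotient.mk I (tt H c) = ∑ i, (PP ρ c i).trace :=
  Classical.choose_spec (ex_tr H c)

/-- nondegeneracy of the trace form of the product -/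
theorem nondeg_pi {R : Type} [CommRing R] {S : Set (∀ i, Matrix (Fin (d i)) (Fin (d i)) R)}
    (hS : Submodule.span R S = ⊤) (w : ∀ i, Matrix (Fin (d i)) (Fin (d i)) R)
    (h : ∀ z ∈ S, ∑ i, (w i * z i).trace = 0) : w = 0 := by
  have h1 : ∀ z ∈ Submodule.span R S, ∑ i, (w i * z i).trace = 0 := by
    intro z hz
    induction hz using Submodule.span_induction with
    | mem z hz => exact h z hz
    | zero => simp
    | add x y _ _ hx hy =>
      simp only [Pi.add_apply, Matrix.mul_add, Matrix.trace_add, Finset.sum_add_distrib]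
      rw [hx, hy, add_zero]
    | smul a x _ hx =>
      simp only [Pi.smul_apply, Matrix.mul_smul, Matrix.trace_smul, ← Finset.smul_sum]
      rw [hx, smul_zero]
  funext i
  ext p q
  have h2 := h1 (Pi.single i (Matrix.single q p 1)) (by rw [hS]; trivial)
  rw [Finset.sum_eq_single i] at h2
  · rw [Pi.single_eq_same, Matrix.trace_mul_single] at h2
    simpa using h2
  · intro b _ hb
    rw [Pi.single_eq_of_ne hb, Matrix.mul_zero, Matrix.trace_zero]
  · intro hb
    exact absurd (Finset.mem_univ _) hb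

/-- nondegeneracy of the trace form -/
theorem nondeg {k X : Type} [Field k] [Fintype X] [DecidableEq X] {S : Set (Matrix X X k)}
    (hS : Submodule.span k S = ⊤) (w : Matrix X X k) (h : ∀ z ∈ S, (w * z).trace = 0) : w = 0 := by
  have h1 : ∀ z ∈ Submodule.span k S, (w * z).trace = 0 := by
    intro z hz
    induction hz using Submodule.span_induction with
    | mem z hz => exact h z hz
    | zero => simp
    | add x y _ _ hx hy => rw [Matrix.mul_add, Matrix.trace_add, hx, hy, add_zero]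
    | smul a x _ hx => rw [Matrix.mul_smul, Matrix.trace_smul, hx, smul_zero]
  rw [Matrix.ext_iff_trace_mul_right]
  intro x
  rw [h1 x (by rw [hS]; trivial), Matrix.zero_mul, Matrix.trace_zero]

theorem FF_single (r : ∀ κ, G →* Matrix (Σ i, Fin (d i)) (Σ i, Fin (d i)) (L κ)) (g : G) :
    FF (T := T) r (MonoidAlgebra.single g 1) = fam r g := by
  have h1 : FF r (MonoidAlgebra.single g (1 : T)) = (1 : T) • fam r g :=
    MonoidAlgebra.lift_single _ _ _
  rw [h1, one_smul]

theorem PP_single (ρ : ∀ i, G →* Matrix (Fin (d i)) (Fin (d i)) (T ⧸ I)) (g : G) :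
    PP ρ (MonoidAlgebra.single g 1) = fun i => ρ i g := by
  have h1 : PP ρ (MonoidAlgebra.single g (1 : T)) = (1 : T) • rt ρ g :=
    MonoidAlgebra.lift_single _ _ _
  rw [h1, one_smul]
  rfl

theorem PP_zero {ρ : ∀ i, G →* Matrix (Fin (d i)) (Fin (d i)) (T ⧸ I)}
    {r : ∀ κ, G →* Matrix (Σ i, Fin (d i)) (Σ i, Fin (d i)) (L κ)} {t : G → T} (H : Hyp I ρ r t)
    (c : MonoidAlgebra T G) (hc : FF r c = 0) : PP ρ c = 0 := by
  apply nondeg_pi H.span
  rintro _ ⟨g, rfl⟩
  have h1 := tt_spec H (c * MonoidAlgebra.single g 1)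
  rw [map_mul, hc, zero_mul, Matrix.trace_zero] at h1
  have h2 : tt H (c * MonoidAlgebra.single g 1) = 0 := by
    apply inj' H
    rw [← h1.1, map_zero]
  have h3 := h1.2
  rw [h2, map_zero, map_mul, PP_single] at h3
  exact h3.symm

theorem fin_range [IsNoetherianRing T] [Fintype K]
    {ρ : ∀ i, G →* Matrix (Fin (d i)) (Fin (d i)) (T ⧸ I)}
    {r : ∀ κ, G →* Matrix (Σ i, Fin (d i)) (Σ i, Fin (d i)) (L κ)} {t : G → T} (H : Hyp I ρ r t) :
    Module.Finite T (FF (T := T) r).range := by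
  classical
  have hf : ∀ κ, ∃ (m : ℕ) (f : Fin m → G),
      Submodule.span (L κ) (Set.range fun j => r κ (f j)) = ⊤ := by
    intro κ
    obtain ⟨f, hf1, hf2, -⟩ := Submodule.exists_fun_fin_finrank_span_eq (L κ) (Set.range (r κ))
    choose g hg using hf1
    refine ⟨_, g, ?_⟩
    refine Eq.trans ?_ (hf2.trans (H.irr κ))
    congr 1
    ext y
    constructor
    · rintro ⟨j, rfl⟩
      exact ⟨j, (hg j).symm⟩
    · rintro ⟨j, rfl⟩
      exact ⟨j, hg j⟩
  choose m f hf using hf
  let τ : MonoidAlgebra T G →ₗ[T] ((Σ κ, Fin (m κ)) → T) :=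
    LinearMap.pi fun γ => (tt H).comp (LinearMap.mulRight T (MonoidAlgebra.single (f γ.1 γ.2) 1))
  have hker : LinearMap.ker τ ≤ LinearMap.ker (FF (T := T) r).rangeRestrict.toLinearMap := by
    intro c hc
    rw [LinearMap.mem_ker] at hc ⊢
    apply Subtype.ext
    show FF r c = 0
    ext x y κ
    have h1 : (FF r c).map (Pi.evalRingHom L κ) = 0 := by
      apply nondeg (hf κ)
      rintro _ ⟨j, rfl⟩
      have h2 : tt H (c * MonoidAlgebra.single (f κ j) 1) = 0 := congrFun hc ⟨κ, j⟩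
      have h3 := (tt_spec H (c * MonoidAlgebra.single (f κ j) 1)).1
      rw [h2, map_zero, map_mul, FF_single] at h3
      have h4 := congrFun h3 κ
      have h5 : (FF r c * fam r (f κ j)).trace κ =
          ((FF r c).map (Pi.evalRingHom L κ) * r κ (f κ j)).trace := by
        have h6 : (FF r c).map (Pi.evalRingHom L κ) * r κ (f κ j) =
            (FF r c * fam r (f κ j)).map (Pi.evalRingHom L κ) := by
          rw [Matrix.map_mul]
          rfl
        rw [h6]
        unfold Matrix.trace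
        rw [Finset.sum_apply]
        rfl
      rw [← h5]
      exact h4
    exact congrFun (congrFun h1 x) y
  have h1 : Module.Finite T (MonoidAlgebra T G ⧸ LinearMap.ker τ) :=
    Module.Finite.equiv (τ.quotKerEquivRange).symm
  refine Module.Finite.of_surjective ((LinearMap.ker τ).liftQ _ hker) ?_
  intro y
  obtain ⟨c, hc⟩ := (FF (T := T) r).rangeRestrict_surjective y
  exact ⟨Submodule.Quotient.mk c, hc⟩

theorem surj_PP {ρ : ∀ i, G →* Matrix (Fin (d i)) (Fin (d i)) (T ⧸ I)}
    (hspan : Submodule.span (T ⧸ I) (Set.range fun (g : G) i => ρ i g) = ⊤) :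
    Function.Surjective (PP ρ) := by
  intro y
  have hy : y ∈ Submodule.span (T ⧸ I) (Set.range fun (g : G) i => ρ i g) := by rw [hspan]; trivial
  induction hy using Submodule.span_induction with
  | mem y hy =>
    obtain ⟨g, rfl⟩ := hy
    exact ⟨MonoidAlgebra.single g 1, PP_single ρ g⟩
  | zero => exact ⟨0, map_zero _⟩
  | add x y _ _ hx hy =>
    obtain ⟨c, rfl⟩ := hx
    obtain ⟨c', rfl⟩ := hy
    exact ⟨c + c', map_add _ _ _⟩
  | smul a x _ hx =>
    obtain ⟨c, rfl⟩ := hx
    obtain ⟨s, rfl⟩ := Ideal.Quotient.mk_surjective a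
    refine ⟨s • c, ?_⟩
    rw [map_smul]
    funext i
    ext p q
    rfl

end main

theorem PHI : S_PHI := by
  intro T G K J L _ _ _ _ _ _ _ _ I d ρ r t H
  obtain ⟨Φ, hΦ⟩ := exists_fac (FF r) (PP ρ) (PP_zero H)
  have hmem : ∀ c, FF r c ∈ (FF (T := T) r).range := fun c => ⟨c, rfl⟩
  refine ⟨(FF r).range, Φ, fin_range H, ?_, ?_, ?_, ?_⟩
  · intro g
    have h1 := hΦ (MonoidAlgebra.single g 1) (hmem _)
    have h2 := FF_single (T := T) r g
    refine ⟨by rw [← h2]; exact hmem _, ?_⟩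
    rw [← PP_single ρ g, ← h1]
    congr 1
    exact Subtype.ext h2.symm
  · rintro _ ⟨c, rfl⟩
    exact ⟨c.coeff, (MonoidAlgebra.lift_apply (fam r) c).symm⟩
  · intro y
    obtain ⟨c, rfl⟩ := surj_PP H.span y
    exact ⟨⟨FF r c, hmem c⟩, hΦ c (hmem c)⟩
  · rintro ⟨_, c, rfl⟩
    have h1 := tt_spec H c
    refine ⟨tt H c, h1.1, ?_⟩
    rw [h1.2]
    have h2 : Φ ⟨FF r c, hmem c⟩ = PP ρ c := hΦ c (hmem c)
    rw [← h2]
    rfl

end Pool.Agent.H370.CF
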